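import Mathlib
import Pool.Agent.Y368.PT.Typical

set_option autoImplicit false

/-!
# Inscribed parallelotopes: typical bodies and centrally symmetric bodies

* Property (I) fails in every dimension `d ≥ 4`.
* For every `d ≥ 7` it fails even for centrally symmetric convex bodies.
* A typical (Baire category, Hausdorff metric) convex body of `ℝ ^ d` has nonempty interior and no
  inscribed nondegenerate `k`-dimensional parallelotope for any `k` with `d (k + 1) < 2 ^ k`; in
  particular, for `d ≥ 5`, no `d`-dimensional one.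
* A typical centrally symmetric convex body of `ℝ ^ d` has none with `2 d (k + 1) < 2 ^ k`; in
  particular, for `d ≥ 7`, no `d`-dimensional one.

Definitions: `Pool/Agent/Y368/PT/Typical.lean` (`E`, `Inscribed`, `IsBody`,
`IsSymm`, `Thin`, `SymBody`).
-/

namespace Pool.Agent.Results.MP_bec8f7_co.TypicalSymmetric

open Pool.Agent.Y368.PT Filter

theorem result :
    (∀ d : ℕ, 4 ≤ d → ∃ C : Set (E d), IsBody C ∧ ¬ Inscribed d d C) ∧
    (∀ d : ℕ, 7 ≤ d → ∃ C : Set (E d), IsBody C ∧ IsSymm C ∧ ¬ Inscribed d d C) ∧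
    (∀ d : ℕ, BaireSpace (ConvexBody (E d)) ∧
      {K : ConvexBody (E d) | Thin 1 5 (K : Set (E d))} ∈ residual (ConvexBody (E d))) ∧
    (∀ d : ℕ, 0 < d → BaireSpace (SymBody d) ∧
      {K : SymBody d | Thin 2 7 (K.1 : Set (E d))} ∈ residual (SymBody d)) := by
  refine ⟨fun d hd => ?_, fun d hd => ?_, fun d => ⟨?_, ?_⟩, fun d hd => ⟨?_, ?_⟩⟩
  · rcases Nat.eq_or_lt_of_le hd with h | h
    · subst h
      obtain ⟨C, h1, h2, h3, h4⟩ := Pool.Agent.Helper892.Dim4.exists_body4
      exact ⟨C, ⟨h1, h2, h3⟩, h4⟩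
    · obtain ⟨K, hK1, hK2⟩ := Pool.Agent.Helper892.Dim5.exists_body (d := d) h
      exact ⟨K, ⟨K.isCompact, K.convex, hK1⟩, hK2⟩
  · obtain ⟨C, h1, h2, h3, h4, h5⟩ := exists_sym hd
    exact ⟨C, ⟨h1, h2, h3⟩, h4, h5⟩
  · infer_instance
  · filter_upwards [typical d] with K hK
    exact ⟨hK.1, fun h5 => hK.2 d (pow_bound5 h5), fun k hk => hK.2 k (by rwa [one_mul] at hk)⟩
  · infer_instance
  · filter_upwards [typicalS d hd] with K hK
    exact ⟨hK.1, fun h7 => hK.2 d (pow_bound h7), hK.2⟩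

end Pool.Agent.Results.MP_bec8f7_co.TypicalSymmetric
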